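import Pool.Agent.helper48.TH.Spec3

set_option autoImplicit false

namespace TP.TW

open DP MeasureTheory Finset

/-- enumeration of `W` -/
noncomputable def DRR_e (W : Finset V) (i : Fin (#W)) : V := (W.equivFin.symm i).1

/-- extension by `false` -/
noncomputable def DRR_x (W : Finset V) (x : Fin (#W) → Bool) (v : V) : Bool :=
  if h : v ∈ W then x (W.equivFin ⟨v, h⟩) else false

lemma DRR_inj (W : Finset V) : Function.Injective (DRR_e W) := by
  intro i j h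
  unfold DRR_e at h
  exact W.equivFin.symm.injective (Subtype.ext h)

lemma DRR_mem (W : Finset V) (i : Fin (#W)) : DRR_e W i ∈ W := (W.equivFin.symm i).2

lemma DRR_ex (W : Finset V) (v : V) (h : v ∈ W) : ∃ i, DRR_e W i = v := by
  refine ⟨W.equivFin ⟨v, h⟩, ?_⟩
  unfold DRR_e
  rw [Equiv.symm_apply_apply]

lemma DRR_xe (W : Finset V) (x : Fin (#W) → Bool) (i : Fin (#W)) : DRR_x W x (DRR_e W i) = x i := by
  unfold DRR_x
  rw [dif_pos (DRR_mem W i)]
  congr 1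
  unfold DRR_e
  simp

lemma DRR_xb (W : Finset V) (β : V → Bool) (v : V) (h : v ∈ W) :
    DRR_x W (fun i => β (DRR_e W i)) v = β v := by
  obtain ⟨i, rfl⟩ := DRR_ex W v h
  rw [DRR_xe]

lemma DRR_P (h2 : PRN_stmt) (W Λ : Finset V) (F : Set (V → Bool)) (hF : CD F Λ) (hΛ : Λ ⊆ W)
    [DecidablePred (fun x : Fin (#W) → Bool => DRR_x W x ∈ F)] :
    Pr F = ((univ.filter (fun x : Fin (#W) → Bool => DRR_x W x ∈ F)).card : ℝ) / 2 ^ (#W) := by
  have h := h2 (#W) (DRR_e W) (DRR_inj W) (fun x => DRR_x W x ∈ F)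
  have e : {β : V → Bool | DRR_x W (fun i => β (DRR_e W i)) ∈ F} = F := by
    ext β
    exact hF _ _ (fun v hv => DRR_xb W β v (hΛ hv))
  rw [e] at h
  rw [h]
  congr

lemma DRR_prob : IsProbabilityMeasure P1 := by
  unfold P1
  infer_instance

lemma DRR_mono {F G : Set (V → Bool)} (h : F ⊆ G) : Pr F ≤ Pr G := by
  have := DRR_prob
  unfold Pr
  exact measureReal_mono h (measure_ne_top _ _)

lemma DRR_nn (F : Set (V → Bool)) : 0 ≤ Pr F := by
  unfold Pr
  exact measureReal_nonneg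

lemma DRR_le (F : Set (V → Bool)) : Pr F ≤ 1 := by
  have := DRR_prob
  unfold Pr
  exact measureReal_le_one

/-- stability -/
lemma DRR_st {Ω : Finset V} {S : ℕ → (V → Bool) → Finset V} (h : RV Ω S) (i : ℕ) (β β' : V → Bool)
    (hb : ∀ v ∈ S i β, β' v = β v) : S i β' = S i β := by
  rcases i with _ | i
  · rw [h.2.1, h.2.1]
  · exact (h.2.2 i β).2.2 β' (fun v hv => hb v ((h.2.2 i β).1 hv))

lemma DRR_Om {Ω : Finset V} {S : ℕ → (V → Bool) → Finset V} (h : RV Ω S) (i : ℕ) (β : V → Bool) : S i β ⊆ Ω :=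
  (h.2.2 i β).2.1

lemma DRR_lo {Ω : Finset V} {S : ℕ → (V → Bool) → Finset V} (h : RV Ω S) (i : ℕ) (β β' : V → Bool)
    (hb : ∀ v ∈ Ω, β' v = β v) : S i β' = S i β :=
  DRR_st h i β β' (fun v hv => hb v (DRR_Om h i β hv))

lemma DRR_mn {Ω : Finset V} {S : ℕ → (V → Bool) → Finset V} (h : RV Ω S) (i : ℕ) (β : V → Bool) (d : ℕ) :
    S i β ⊆ S (i + d) β := by
  induction d with
  | zero => exact subset_rfl
  | succ d ih => exact ih.trans (h.2.2 (i + d) β).1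

lemma DRR_mn' {Ω : Finset V} {S : ℕ → (V → Bool) → Finset V} (h : RV Ω S) (i k : ℕ) (hik : i ≤ k) (β : V → Bool) :
    S i β ⊆ S k β := by
  obtain ⟨d, rfl⟩ := Nat.exists_eq_add_of_le hik
  exact DRR_mn h i β d

/-- the algorithm on the cube -/
noncomputable def DRR_S (W : Finset V) (S : ℕ → (V → Bool) → Finset V) (J : ℕ) (τ : V) (i : ℕ) (x : Fin (#W) → Bool) :
    Finset (Fin (#W)) :=
  univ.filter (fun u => ((DRR_e W u).1 - τ.1, (DRR_e W u).2 - τ.2) ∈ S (min i J) (fun v => DRR_x W x (v.1 + τ.1, v.2 + τ.2)))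

lemma DRR_rounds {Ω : Finset V} {S : ℕ → (V → Bool) → Finset V} (h : RV Ω S) (W : Finset V) (J : ℕ) (τ : V)
    (hW : ∀ v ∈ Ω, (v.1 + τ.1, v.2 + τ.2) ∈ W) : EN.Rounds (DRR_S W S J τ) := by
  refine ⟨?_, ?_⟩
  · intro x
    unfold DRR_S
    rw [Nat.zero_min, h.2.1]
    simp
  · intro i x
    refine ⟨?_, ?_⟩
    · intro u hu
      unfold DRR_S at hu ⊢
      rw [mem_filter] at hu ⊢
      exact ⟨hu.1, DRR_mn' h _ _ (by omega) _ hu.2⟩
    · intro y hy
      have key : ∀ v ∈ S (min i J) (fun v => DRR_x W x (v.1 + τ.1, v.2 + τ.2)),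
          (fun v : V => DRR_x W y (v.1 + τ.1, v.2 + τ.2)) v = (fun v : V => DRR_x W x (v.1 + τ.1, v.2 + τ.2)) v := by
        intro v hv
        obtain ⟨u, hu⟩ := DRR_ex W _ (hW v (DRR_Om h _ _ hv))
        show DRR_x W y (v.1 + τ.1, v.2 + τ.2) = DRR_x W x (v.1 + τ.1, v.2 + τ.2)
        rw [← hu, DRR_xe, DRR_xe]
        refine hy u ?_
        unfold DRR_S
        rw [mem_filter]
        refine ⟨mem_univ _, ?_⟩
        rw [hu]
        have e : ((v.1 + τ.1, v.2 + τ.2).1 - τ.1, (v.1 + τ.1, v.2 + τ.2).2 - τ.2) = v := by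
          refine Prod.ext ?_ ?_
          · show v.1 + τ.1 - τ.1 = v.1
            ring
          · show v.2 + τ.2 - τ.2 = v.2
            ring
        rw [e]
        exact hv
      have key2 : S (min (i + 1) J) (fun v => DRR_x W y (v.1 + τ.1, v.2 + τ.2)) =
          S (min (i + 1) J) (fun v => DRR_x W x (v.1 + τ.1, v.2 + τ.2)) := by
        rcases Nat.lt_or_ge i J with hi | hi
        · rw [min_eq_left hi.le] at key
          rw [min_eq_left (by omega : i + 1 ≤ J)]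
          exact (h.2.2 i _).2.2 _ key
        · rw [min_eq_right hi] at key
          rw [min_eq_right (by omega : J ≤ i + 1)]
          exact DRR_st h J _ _ key
      unfold DRR_S
      rw [key2]

lemma DRR_cd {Ω : Finset V} {S : ℕ → (V → Bool) → Finset V} (h : RV Ω S) (i : ℕ) (v : V) :
    CD {β | v ∈ S i β} Ω := by
  intro b b' hb
  rw [Set.mem_ofPred_eq, Set.mem_ofPred_eq, DRR_lo h i b' b hb]

lemma DRR_cd2 {Ω : Finset V} {S : ℕ → (V → Bool) → Finset V} (h : RV Ω S) (i : ℕ) (v τ : V) :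
    CD {β | v ∈ S i (fun u => β (u.1 + τ.1, u.2 + τ.2))} (Ω.image (fun u => (u.1 + τ.1, u.2 + τ.2))) := by
  intro b b' hb
  rw [Set.mem_ofPred_eq, Set.mem_ofPred_eq, DRR_lo h i (fun u => b' (u.1 + τ.1, u.2 + τ.2)) (fun u => b (u.1 + τ.1, u.2 + τ.2))
    (fun u hu => hb _ (mem_image_of_mem _ hu))]

lemma DRR_cdi {E F : Set (V → Bool)} {Λ Λ' W : Finset V} (hE : CD E Λ) (hF : CD F Λ') (h1 : Λ ⊆ W) (h2 : Λ' ⊆ W) :
    CD (E ∩ F) W := by
  intro b b' hb
  rw [Set.mem_inter_iff, Set.mem_inter_iff, hE b b' (fun v hv => hb v (h1 hv)), hF b b' (fun v hv => hb v (h2 hv))]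

lemma DRR_alg (p c M q : ℝ) (hM : M ≠ 0) (hq : q ≠ 0) (h : M = p * q) : c / q = p * (c * (1 / M)) := by
  have hp : p ≠ 0 := by
    rintro rfl
    rw [zero_mul] at h
    exact hM h
  rw [h]
  field_simp

theorem DRR (h1 : EN.ENT_stmt) (h2 : PRN_stmt) (h3 : SHP_stmt) : DRR_stmt := by
  classical
  intro j
  obtain ⟨C, hC, hent⟩ := h1 j
  refine ⟨C, hC, ?_⟩
  intro Ω S hRV
  refine ⟨hRV.1, fun β => DRR_Om hRV _ β, ⟨Ω, fun β β' hb => DRR_lo hRV _ β' β hb⟩, fun v => DRR_nn _, ?_, hC.le, ?_⟩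
  · intro v hv
    have e : {β : V → Bool | v ∈ S (j + 1) β} = ∅ := by
      ext β
      rw [Set.mem_ofPred_eq, Set.mem_empty_iff_false, iff_false]
      exact fun h => hv (DRR_Om hRV _ β h)
    show Pr {β : V → Bool | v ∈ S (j + 1) β} = 0
    rw [e]
    unfold Pr
    exact measureReal_empty
  intro T U Λ z E hE hU
  rcases eq_or_ne (Pr E) 0 with hp0 | hp0
  · have e : ∀ τ ∈ T, Pr (E ∩ {β | (z.1 - τ.1, z.2 - τ.2) ∈ S (j + 1) (fun v => β (v.1 + τ.1, v.2 + τ.2))}) ≤ 0 := by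
      intro τ _
      rw [← hp0]
      exact DRR_mono Set.inter_subset_left
    refine (Finset.sum_nonpos e).trans ?_
    rw [hp0]
    simp
  have hp : 0 < Pr E := lt_of_le_of_ne (DRR_nn E) (Ne.symm hp0)
  set W : Finset V := insert z (Λ ∪ T.biUnion (fun τ => Ω.image (fun u => (u.1 + τ.1, u.2 + τ.2)))) with hW
  have hΛW : Λ ⊆ W := fun v hv => mem_insert_of_mem (mem_union_left _ hv)
  have hTW : ∀ τ ∈ T, Ω.image (fun u : V => (u.1 + τ.1, u.2 + τ.2)) ⊆ W := by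
    intro τ hτ v hv
    exact mem_insert_of_mem (mem_union_right _ (mem_biUnion.mpr ⟨τ, hτ, hv⟩))
  obtain ⟨z', hz'⟩ := DRR_ex W z (mem_insert_self _ _)
  set M : ℝ := ((univ.filter (fun x : Fin (#W) → Bool => DRR_x W x ∈ E)).card : ℝ) with hM
  have hMp : Pr E = M / 2 ^ (#W) := DRR_P h2 W Λ E hE hΛW
  have h2m : (0 : ℝ) < 2 ^ (#W) := by positivity
  have hMp' : M = Pr E * 2 ^ (#W) := by
    rw [hMp, div_mul_cancel₀ _ h2m.ne']
  have hMpos : 0 < M := by
    rw [hMp']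
    positivity
  set Q : (Fin (#W) → Bool) → ℝ := fun x => if DRR_x W x ∈ E then 1 / M else 0 with hQ
  have hLaw : EN.Law Q := by
    refine ⟨?_, ?_⟩
    · intro x
      rw [hQ]
      simp only
      split_ifs
      · exact (one_div_pos.mpr hMpos).le
      · exact le_rfl
    · rw [hQ, ← Finset.sum_filter, Finset.sum_const, nsmul_eq_mul, ← hM]
      field_simp
  set Λ' : Finset (Fin (#W)) := univ.filter (fun u => DRR_e W u ∈ Λ) with hΛ'
  have hloc : ∀ x y : EN.Om (#W), (∀ u ∈ Λ', x u = y u) → Q x = Q y := by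
    intro x y hxy
    have e : DRR_x W x ∈ E ↔ DRR_x W y ∈ E := by
      refine hE _ _ ?_
      intro v hv
      obtain ⟨u, rfl⟩ := DRR_ex W v (hΛW hv)
      rw [DRR_xe, DRR_xe]
      exact hxy u (mem_filter.mpr ⟨mem_univ _, hv⟩)
    rw [hQ]
    simp only [e]
  set L : ℝ := Real.log (1 / Pr E) with hL
  have hL0 : 0 ≤ L := Real.log_nonneg (by
    rw [le_div_iff₀ hp, one_mul]
    exact DRR_le E)
  have hQL : ∀ x, Q x ≤ Real.exp L / 2 ^ (#W) := by
    intro x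
    have e : Real.exp L / 2 ^ (#W) = 1 / M := by
      rw [hL, Real.exp_log (one_div_pos.mpr hp), hMp', div_div]
    rw [e, hQ]
    simp only
    split_ifs
    · exact le_rfl
    · exact (one_div_pos.mpr hMpos).le
  set N : ℝ := ∑ u ∈ U, Pr {β | u ∈ S (j + 1) β} with hN
  have hN0 : 0 ≤ N := Finset.sum_nonneg (fun u _ => DRR_nn _)
  have hbase : ∀ i : ℕ, ∀ v ∈ insert z' Λ', ∑ τ ∈ T, (#{x : EN.Om (#W) | v ∈ DRR_S W S (j + 1) τ i x} : ℝ) / 2 ^ (#W) ≤ N := by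
    intro i v hv
    have hev : DRR_e W v ∈ insert z Λ := by
      rcases mem_insert.mp hv with rfl | hv'
      · rw [hz']
        exact mem_insert_self _ _
      · exact mem_insert_of_mem (mem_filter.mp hv').2
    have hterm : ∀ τ ∈ T, (#{x : EN.Om (#W) | v ∈ DRR_S W S (j + 1) τ i x} : ℝ) / 2 ^ (#W) ≤
        Pr {β | ((DRR_e W v).1 - τ.1, (DRR_e W v).2 - τ.2) ∈ S (j + 1) β} := by
      intro τ hτ
      have q1 := DRR_P h2 W _ _ (DRR_cd2 hRV (min i (j + 1)) ((DRR_e W v).1 - τ.1, (DRR_e W v).2 - τ.2) τ) (hTW τ hτ)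
      have q2 := h3 _ _ (DRR_cd hRV (min i (j + 1)) ((DRR_e W v).1 - τ.1, (DRR_e W v).2 - τ.2)) τ.1 τ.2
      have q3 : (univ.filter (fun x : EN.Om (#W) => v ∈ DRR_S W S (j + 1) τ i x)) =
          univ.filter (fun x : Fin (#W) → Bool => DRR_x W x ∈
            {β : V → Bool | ((DRR_e W v).1 - τ.1, (DRR_e W v).2 - τ.2) ∈ S (min i (j + 1)) (fun u => β (u.1 + τ.1, u.2 + τ.2))}) := by
        ext x
        simp only [DRR_S, mem_filter, mem_univ, true_and, Set.mem_ofPred_eq]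
      rw [q3, ← q1]
      refine q2.le.trans (DRR_mono ?_)
      intro β hβ
      exact DRR_mn' hRV _ _ (by omega) β hβ
    refine (Finset.sum_le_sum hterm).trans ?_
    have hinj : Set.InjOn (fun τ : V => ((DRR_e W v).1 - τ.1, (DRR_e W v).2 - τ.2)) (T : Set V) := by
      intro a _ b _ hab
      have p1 := congrArg Prod.fst hab
      have p2 := congrArg Prod.snd hab
      simp only at p1 p2
      exact Prod.ext (by linarith) (by linarith)
    have hs := Finset.sum_image (s := T) (g := fun τ : V => ((DRR_e W v).1 - τ.1, (DRR_e W v).2 - τ.2))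
      (f := fun u : V => Pr {β | u ∈ S (j + 1) β}) hinj
    rw [← hs, hN]
    refine Finset.sum_le_sum_of_subset_of_nonneg ?_ (fun u _ _ => DRR_nn _)
    intro u hu
    obtain ⟨τ, hτ, rfl⟩ := mem_image.mp hu
    exact hU _ hev τ hτ
  have hfin := hent (#W) V T (DRR_S W S (j + 1)) Λ' z' N
    (fun τ hτ => DRR_rounds hRV W (j + 1) τ (fun v hv => hTW τ hτ (mem_image_of_mem _ hv))) hbase Q L hLaw hloc hL0 hQL z' (mem_insert_self _ _)
  have hsum : ∀ τ ∈ T, Pr (E ∩ {β | (z.1 - τ.1, z.2 - τ.2) ∈ S (j + 1) (fun v => β (v.1 + τ.1, v.2 + τ.2))}) =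
      Pr E * ∑ x with z' ∈ DRR_S W S (j + 1) τ (j + 1) x, Q x := by
    intro τ hτ
    rw [DRR_P h2 W W _ (DRR_cdi hE (DRR_cd2 hRV (j + 1) (z.1 - τ.1, z.2 - τ.2) τ) hΛW (hTW τ hτ)) subset_rfl]
    have e1 : (univ.filter (fun x : Fin (#W) → Bool => DRR_x W x ∈
        E ∩ {β : V → Bool | (z.1 - τ.1, z.2 - τ.2) ∈ S (j + 1) (fun v => β (v.1 + τ.1, v.2 + τ.2))})) =
        (univ.filter (fun x : Fin (#W) → Bool => z' ∈ DRR_S W S (j + 1) τ (j + 1) x)).filter (fun x => DRR_x W x ∈ E) := by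
      ext x
      simp only [DRR_S, mem_filter, mem_univ, true_and, Set.mem_inter_iff, Set.mem_ofPred_eq, hz', min_self]
      exact and_comm
    rw [e1]
    have e2 : ∑ x ∈ univ.filter (fun x : Fin (#W) → Bool => z' ∈ DRR_S W S (j + 1) τ (j + 1) x), Q x =
        (((univ.filter (fun x : Fin (#W) → Bool => z' ∈ DRR_S W S (j + 1) τ (j + 1) x)).filter (fun x => DRR_x W x ∈ E)).card : ℝ) * (1 / M) := by
      rw [hQ, ← Finset.sum_filter, Finset.sum_const, nsmul_eq_mul]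
    rw [e2]
    exact DRR_alg _ _ _ _ hMpos.ne' h2m.ne' hMp'
  rw [Finset.sum_congr rfl hsum, ← Finset.mul_sum]
  have hcard : (#Λ' : ℝ) ≤ #Λ := by
    have : #Λ' ≤ #Λ := by
      refine Finset.card_le_card_of_injOn (DRR_e W) ?_ ((DRR_inj W).injOn)
      intro u hu
      have hu' : u ∈ Λ' := hu
      rw [hΛ', mem_filter] at hu'
      exact hu'.2
    exact_mod_cast this
  have hT0 : (0 : ℝ) ≤ #T := Nat.cast_nonneg _
  have hΛ0 : (0 : ℝ) ≤ #Λ' := Nat.cast_nonneg _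
  have hlog1 : 0 ≤ Real.log ((#Λ' : ℝ) + 3) := Real.log_nonneg (by linarith)
  have hlog2 : Real.log ((#Λ' : ℝ) + 3) ≤ Real.log ((#T : ℝ) + #Λ + 3) := Real.log_le_log (by linarith) (by linarith)
  have hpow : (L + Real.log ((#Λ' : ℝ) + 3)) ^ j ≤ (L + Real.log ((#T : ℝ) + #Λ + 3)) ^ j :=
    pow_le_pow_left₀ (by linarith) (by linarith) j
  calc Pr E * ∑ τ ∈ T, ∑ x with z' ∈ DRR_S W S (j + 1) τ (j + 1) x, Q x
      ≤ Pr E * (C * N * (L + Real.log ((#Λ' : ℝ) + 3)) ^ j) := mul_le_mul_of_nonneg_left hfin hp.le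
    _ ≤ Pr E * (C * N * (L + Real.log ((#T : ℝ) + #Λ + 3)) ^ j) :=
        mul_le_mul_of_nonneg_left (mul_le_mul_of_nonneg_left hpow (mul_nonneg hC.le hN0)) hp.le
    _ = C * Pr E * (L + Real.log ((#T : ℝ) + #Λ + 3)) ^ j * N := by ring

end TP.TW
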