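import Pool.Agent.helper9.TH.Spec

namespace Pool.Agent.helper15.TH

open Pool.Agent.helper9.TH

universe u

theorem ea_bot (p : ℕ) {G : Type u} [Group G] : EA p (⊥ : Subgroup G) := by
  constructor
  · intro x hx y hy
    rw [Subgroup.mem_bot] at hx hy
    rw [hx, hy]
  · intro x hx
    rw [Subgroup.mem_bot] at hx
    rw [hx, one_pow]

theorem exists_maxEA (p : ℕ) {G : Type u} [Group G] [Finite G] (P : Subgroup G) :
    ∃ A : Subgroup G, MaxEA p P A := by
  obtain ⟨A, hA, hmax⟩ := Set.exists_max_image {A : Subgroup G | A ≤ P ∧ EA p A}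
    (fun A => Nat.card A) (Set.toFinite _) ⟨⊥, bot_le, ea_bot p⟩
  exact ⟨A, hA.1, hA.2, fun B hB hB' => hmax B ⟨hB, hB'⟩⟩

theorem jj_ne_bot (p : ℕ) (G : Type u) [Group G] [Finite G] (P : Subgroup G) (hp : p.Prime)
    (hP : IsPGroup p P) (hne : P ≠ ⊥) : JJ p P ≠ ⊥ := by
  have : Fact p.Prime := ⟨hp⟩
  have : Nontrivial P := (Subgroup.nontrivial_iff_ne_bot P).mpr hne
  have hdvd : p ∣ Nat.card P := by
    rcases hP.card_eq_or_dvd with h | h
    · exact absurd h (ne_of_gt Finite.one_lt_card)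
    · exact h
  obtain ⟨x, hx⟩ := exists_prime_orderOf_dvd_card' p hdvd
  have hx' : orderOf (x : G) = p := by rw [Subgroup.orderOf_coe, hx]
  have hEA : EA p (Subgroup.zpowers (x : G)) := by
    constructor
    · intro a ha b hb
      obtain ⟨i, rfl⟩ := Subgroup.mem_zpowers_iff.mp ha
      obtain ⟨j, rfl⟩ := Subgroup.mem_zpowers_iff.mp hb
      rw [← zpow_add, ← zpow_add, add_comm]
    · intro a ha
      obtain ⟨i, rfl⟩ := Subgroup.mem_zpowers_iff.mp ha
      rw [← zpow_natCast, ← zpow_mul, mul_comm, zpow_mul, zpow_natCast]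
      rw [← hx', pow_orderOf_eq_one, one_zpow]
  obtain ⟨A, hA⟩ := exists_maxEA p P
  have hcard : p ≤ Nat.card A := by
    have h1 := hA.2.2 (Subgroup.zpowers (x : G)) (by
      rw [Subgroup.zpowers_le]; exact x.2) hEA
    rwa [Nat.card_zpowers, hx'] at h1
  have hle : A ≤ JJ p P := le_sSup hA
  intro hbot
  rw [hbot] at hle
  have hAbot : A = ⊥ := le_bot_iff.mp hle
  rw [hAbot, Subgroup.card_bot] at hcard
  have := hp.one_lt
  omega

theorem oz_ne_bot (p : ℕ) (G : Type u) [Group G] [Finite G] (P : Subgroup G) (hp : p.Prime)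
    (hP : IsPGroup p P) (hne : P ≠ ⊥) : OZ p P ≠ ⊥ := by
  have : Fact p.Prime := ⟨hp⟩
  have : Nontrivial P := (Subgroup.nontrivial_iff_ne_bot P).mpr hne
  have : Nontrivial (Subgroup.center P) := hP.center_nontrivial
  have hZ : IsPGroup p (Subgroup.center P) := hP.to_subgroup _
  have hdvd : p ∣ Nat.card (Subgroup.center P) := by
    rcases hZ.card_eq_or_dvd with h | h
    · exact absurd h (ne_of_gt Finite.one_lt_card)
    · exact h
  obtain ⟨z, hz⟩ := exists_prime_orderOf_dvd_card' p hdvd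
  have hzp : z ^ p = 1 := by rw [← hz]; exact pow_orderOf_eq_one z
  have hz1 : z ≠ 1 := by
    intro h
    rw [h, orderOf_one] at hz
    exact hp.one_lt.ne hz
  have hmem : ((z : P) : G) ∈ OZ p P := by
    refine ⟨(z : P).2, ?_, ?_⟩
    · have : (((z : P) : G)) ^ p = (((z ^ p : Subgroup.center P) : P) : G) := by
        simp
      rw [this, hzp]
      simp
    · intro y hy
      have := (Subgroup.mem_center_iff.mp z.2) ⟨y, hy⟩
      have h2 := congrArg (fun t : P => (t : G)) this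
      simpa using h2.symm
  intro hbot
  rw [hbot, Subgroup.mem_bot] at hmem
  apply hz1
  apply Subtype.ext
  apply Subtype.ext
  simpa using hmem

theorem jj_eq (p : ℕ) (G : Type u) [Group G] [Finite G] (P U : Subgroup G)
    (h1 : JJ p P ≤ U) (h2 : U ≤ P) : JJ p U = JJ p P := by
  have key : {A : Subgroup G | MaxEA p U A} = {A : Subgroup G | MaxEA p P A} := by
    ext A
    constructor
    · rintro ⟨ha, hb, hc⟩
      refine ⟨ha.trans h2, hb, fun B hB hB' => ?_⟩
      obtain ⟨A₀, hA₀⟩ := exists_maxEA p P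
      have h3 : A₀ ≤ U := (le_sSup hA₀ : A₀ ≤ JJ p P).trans h1
      exact (hA₀.2.2 B hB hB').trans (hc A₀ h3 hA₀.2.1)
    · intro hA
      have h3 : A ≤ U := (le_sSup hA : A ≤ JJ p P).trans h1
      exact ⟨h3, hA.2.1, fun B hB hB' => hA.2.2 B (hB.trans h2) hB'⟩
  show sSup {A : Subgroup G | MaxEA p U A} = sSup {A : Subgroup G | MaxEA p P A}
  rw [key]

theorem JBb : JBb_stmt.{u} :=
  ⟨jj_ne_bot, oz_ne_bot, jj_eq⟩

end Pool.Agent.helper15.TH
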