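import Pool.Agent.helper48.TH.Spec2

set_option autoImplicit false

namespace TP.TW

open DP MeasureTheory Finset

lemma SPG_prob : IsProbabilityMeasure P1 := by
  unfold P1
  infer_instance

lemma SPG_sub (Ω : Finset V) (w : V → ℝ) (hw : ∀ v, 0 ≤ w v) (x : V) (t : ℕ) (a b d e : ℤ)
    (hr : ∀ v : V, a - t ≤ v.1 → v.1 ≤ b + t → d - t ≤ v.2 → v.2 ≤ e + t → sd x v ≤ 4 * t) :
    ∑ v ∈ nr Ω a b d e t, w v ≤ ∑ v ∈ Ω with sd x v ≤ 4 * t, w v := by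
  refine Finset.sum_le_sum_of_subset_of_nonneg ?_ (fun v _ _ => hw v)
  intro v hv
  unfold nr at hv
  rw [mem_filter] at hv
  rw [mem_filter]
  exact ⟨hv.1, hr v hv.2.1 hv.2.2.1 hv.2.2.2.1 hv.2.2.2.2⟩

theorem SPG (h1 : ANR_stmt) (h2 : VSG_stmt) : SPG_stmt := by
  have := SPG_prob
  intro R
  obtain ⟨C, hC, h⟩ := h2 R
  refine ⟨4 * C, by positivity, ?_⟩
  intro S Ω w K k x t ht hRS
  have hw : ∀ v, 0 ≤ w v := hRS.2.2.2.1
  have hK : 0 ≤ K := hRS.2.2.2.2.2.1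
  have hlog : 0 ≤ Real.log ((t : ℝ) + 2) := Real.log_nonneg (by
    have : (0 : ℝ) ≤ t := Nat.cast_nonneg t
    linarith)
  have hmul : ∀ y z : ℝ, y ≤ z → C * K * Real.log ((t : ℝ) + 2) ^ R * y / (t : ℝ) ^ 2 ≤
      C * K * Real.log ((t : ℝ) + 2) ^ R * z / (t : ℝ) ^ 2 := by
    intro y z hyz
    refine div_le_div_of_nonneg_right ?_ (by positivity)
    exact mul_le_mul_of_nonneg_left hyz (mul_nonneg (mul_nonneg hC.le hK) (pow_nonneg hlog R))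
  have g1 := (h S Ω w K k t (x.1 - 3 * t) (x.2 + t) ht hRS).1
  have g2 := (h S Ω w K k t (x.1 - 3 * t) (x.2 - 3 * t) ht hRS).1
  have g3 := (h S Ω w K k t (x.1 + t) (x.2 - 3 * t) ht hRS).2
  have g4 := (h S Ω w K k t (x.1 - 3 * t) (x.2 - 3 * t) ht hRS).2
  have e1 : x.1 - 3 * (t : ℤ) + 6 * t = x.1 + 3 * t := by ring
  have e2 : x.2 + (t : ℤ) + 2 * t = x.2 + 3 * t := by ring
  have e3 : x.2 - 3 * (t : ℤ) + 2 * t = x.2 - t := by ring
  have e4 : x.1 + (t : ℤ) + 2 * t = x.1 + 3 * t := by ring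
  have e5 : x.2 - 3 * (t : ℤ) + 6 * t = x.2 + 3 * t := by ring
  have e6 : x.1 - 3 * (t : ℤ) + 2 * t = x.1 - t := by ring
  rw [e1, e2] at g1
  rw [e1, e3] at g2
  rw [e4, e5] at g3
  rw [e6, e5] at g4
  have g1' := g1.trans (hmul _ _ (SPG_sub Ω w hw x t _ _ _ _ (by
    intro v q1 q2 q3 q4
    unfold sd
    omega)))
  have g2' := g2.trans (hmul _ _ (SPG_sub Ω w hw x t _ _ _ _ (by
    intro v q1 q2 q3 q4
    unfold sd
    omega)))
  have g3' := g3.trans (hmul _ _ (SPG_sub Ω w hw x t _ _ _ _ (by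
    intro v q1 q2 q3 q4
    unfold sd
    omega)))
  have g4' := g4.trans (hmul _ _ (SPG_sub Ω w hw x t _ _ _ _ (by
    intro v q1 q2 q3 q4
    unfold sd
    omega)))
  have hsub : {β : V → Bool | SR (TP.col β) k (S β) x t} ⊆
      (({β : V → Bool | crs true (TP.col β) k (til (S β)) (x.1 - 3 * t) (x.1 + 3 * t) (x.2 + t) (x.2 + 3 * t)} ∪
      {β : V → Bool | crs true (TP.col β) k (til (S β)) (x.1 - 3 * t) (x.1 + 3 * t) (x.2 - 3 * t) (x.2 - t)}) ∪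
      {β : V → Bool | crs false (TP.col β) k (til (S β)) (x.1 + t) (x.1 + 3 * t) (x.2 - 3 * t) (x.2 + 3 * t)}) ∪
      {β : V → Bool | crs false (TP.col β) k (til (S β)) (x.1 - 3 * t) (x.1 - t) (x.2 - 3 * t) (x.2 + 3 * t)} := by
    intro b hb
    rcases h1 (TP.col b) k (S b) x t ht hb with g | g | g | g
    · exact Or.inl (Or.inl (Or.inl g))
    · exact Or.inl (Or.inl (Or.inr g))
    · exact Or.inl (Or.inr g)
    · exact Or.inr g
  have hm : Pr {β : V → Bool | SR (TP.col β) k (S β) x t} ≤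
      Pr {β : V → Bool | crs true (TP.col β) k (til (S β)) (x.1 - 3 * t) (x.1 + 3 * t) (x.2 + t) (x.2 + 3 * t)} +
      Pr {β : V → Bool | crs true (TP.col β) k (til (S β)) (x.1 - 3 * t) (x.1 + 3 * t) (x.2 - 3 * t) (x.2 - t)} +
      Pr {β : V → Bool | crs false (TP.col β) k (til (S β)) (x.1 + t) (x.1 + 3 * t) (x.2 - 3 * t) (x.2 + 3 * t)} +
      Pr {β : V → Bool | crs false (TP.col β) k (til (S β)) (x.1 - 3 * t) (x.1 - t) (x.2 - 3 * t) (x.2 + 3 * t)} := by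
    unfold Pr
    refine (measureReal_mono hsub (measure_ne_top _ _)).trans ?_
    refine (measureReal_union_le _ _).trans ?_
    refine add_le_add ((measureReal_union_le _ _).trans ?_) le_rfl
    exact add_le_add (measureReal_union_le _ _) le_rfl
  refine hm.trans ?_
  have e : 4 * C * K * Real.log ((t : ℝ) + 2) ^ R * (∑ v ∈ Ω with sd x v ≤ 4 * t, w v) / (t : ℝ) ^ 2 =
      C * K * Real.log ((t : ℝ) + 2) ^ R * (∑ v ∈ Ω with sd x v ≤ 4 * t, w v) / (t : ℝ) ^ 2 +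
      C * K * Real.log ((t : ℝ) + 2) ^ R * (∑ v ∈ Ω with sd x v ≤ 4 * t, w v) / (t : ℝ) ^ 2 +
      C * K * Real.log ((t : ℝ) + 2) ^ R * (∑ v ∈ Ω with sd x v ≤ 4 * t, w v) / (t : ℝ) ^ 2 +
      C * K * Real.log ((t : ℝ) + 2) ^ R * (∑ v ∈ Ω with sd x v ≤ 4 * t, w v) / (t : ℝ) ^ 2 := by ring
  rw [e]
  linarith

end TP.TW
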